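import Mathlib

set_option autoImplicit false

open MvPolynomial

namespace Pool.Agent.Helper63.OLB

lemma extend {R K ι : Type} [CommRing R] [Field K] [Algebra R K] [IsAlgClosed K] {v : ι → K}
    (hv : IsTranscendenceBasis R v) (e : MvPolynomial ι R ≃+* MvPolynomial ι R) :
    ∃ σ : K ≃+* K, ∀ p, σ (aeval v p) = aeval v (e p) := by
  let := IsAlgClosed.isAlgClosure_of_transcendence_basis v hv
  let e' : Algebra.adjoin R (Set.range v) ≃+* Algebra.adjoin R (Set.range v) :=
    hv.1.aevalEquiv.symm.toRingEquiv.trans (e.trans hv.1.aevalEquiv.toRingEquiv)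
  refine ⟨IsAlgClosure.equivOfEquiv K K e', fun p => ?_⟩
  have h1 : aeval v p = algebraMap (Algebra.adjoin R (Set.range v)) K (hv.1.aevalEquiv p) :=
    (hv.1.algebraMap_aevalEquiv p).symm
  have h2 : aeval v (e p) = algebraMap (Algebra.adjoin R (Set.range v)) K
      (hv.1.aevalEquiv (e p)) := (hv.1.algebraMap_aevalEquiv (e p)).symm
  rw [h1, h2, IsAlgClosure.equivOfEquiv_algebraMap]
  congr 1
  simp [e']

theorem exists_aut {K₀ K : Type} [Field K₀] [Field K] [CharZero K₀] [Algebra K₀ K] [IsAlgClosed K]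
    {c : K} (hc : c ∉ Set.range (algebraMap K₀ K)) : ∃ σ : K ≃ₐ[K₀] K, σ c ≠ c := by
  classical
  by_cases halg : IsAlgebraic K₀ c
  · -- another root
    have hint : IsIntegral K₀ c := halg.isIntegral
    obtain ⟨c', hc', hne⟩ : ∃ c' : K, Polynomial.aeval c' (minpoly K₀ c) = 0 ∧ c' ≠ c := by
      by_contra hcon
      push Not at hcon
      have hsep : (minpoly K₀ c).Separable := (minpoly.irreducible hint).separable
      have hcard := Polynomial.card_rootSet_eq_natDegree (K := K) hsep (IsAlgClosed.splits _)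
      have hsub : (minpoly K₀ c).rootSet K ⊆ {c} := fun x hx =>
        hcon x ((Polynomial.mem_rootSet.1 hx).2)
      have h1 : Fintype.card ((minpoly K₀ c).rootSet K) ≤ 1 := by
        rw [Fintype.card_le_one_iff]
        intro x y
        exact Subtype.ext ((hsub x.2).trans (hsub y.2).symm)
      rw [hcard] at h1
      have h2 := minpoly.natDegree_pos hint
      have h3 : (minpoly K₀ c).natDegree = 1 := by omega
      exact hc (minpoly.natDegree_eq_one_iff.1 h3)
    let Kb := algebraicClosure K₀ K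
    have hcb : c ∈ Kb := mem_algebraicClosure_iff.2 halg
    have hcb' : c' ∈ Kb := mem_algebraicClosure_iff.2
      ⟨minpoly K₀ c, minpoly.ne_zero hint, hc'⟩
    have hmp : minpoly K₀ (⟨c, hcb⟩ : Kb) = minpoly K₀ c := by
      rw [← minpoly.algebraMap_eq (algebraMap Kb K).injective (⟨c, hcb⟩ : Kb)]
      rfl
    obtain ⟨σ0, hσ0⟩ := minpoly.exists_algEquiv_of_root' (K := K₀) (L := Kb)
      (x := (⟨c', hcb'⟩ : Kb)) (y := ⟨c, hcb⟩)
      (Algebra.IsAlgebraic.isAlgebraic _) (by
        rw [hmp]
        apply (algebraMap Kb K).injective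
        rw [map_zero, ← hc', ← Polynomial.aeval_algebraMap_apply]
        rfl)
    obtain ⟨ι, v, hv⟩ := exists_isTranscendenceBasis' Kb K
    obtain ⟨σ, hσ⟩ := extend hv (MvPolynomial.mapEquiv ι σ0.toRingEquiv)
    have hσ1 : ∀ a : Kb, σ (algebraMap Kb K a) = algebraMap Kb K (σ0 a) := by
      intro a
      have h := hσ (C a)
      rw [aeval_C] at h
      rw [h]
      simp
    refine ⟨AlgEquiv.ofRingEquiv (f := σ) fun x => ?_, ?_⟩
    · have h := hσ1 (algebraMap K₀ Kb x)
      rw [σ0.commutes, ← IsScalarTower.algebraMap_apply] at h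
      exact h
    · change σ c ≠ c
      have h := hσ1 ⟨c, hcb⟩
      change σ c = _ at h
      rw [h, hσ0]
      exact hne
  · have hind : AlgebraicIndepOn K₀ id ({c} : Set K) := by
      let : Unique ({c} : Set K) := Set.uniqueSingleton c
      refine algebraicIndependent_unique_type_iff.2 ?_
      exact halg
    obtain ⟨t, hct, ht⟩ := exists_isTranscendenceBasis_superset hind
    have hct' : c ∈ t := hct rfl
    let δ : t → K₀ := fun i => if (i : K) = c then 1 else 0
    let e : MvPolynomial t K₀ ≃ₐ[K₀] MvPolynomial t K₀ := AlgEquiv.ofAlgHom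
      (aeval fun i => X i + C (δ i)) (aeval fun i => X i - C (δ i))
      (by ext i; simp) (by ext i; simp)
    obtain ⟨σ, hσ⟩ := extend ht e.toRingEquiv
    refine ⟨AlgEquiv.ofRingEquiv (f := σ) fun x => ?_, ?_⟩
    · have h := hσ (C x)
      rw [aeval_C] at h
      rw [h]
      change aeval _ (e (C x)) = _
      have : e (C x) = C x := e.commutes x
      rw [this, aeval_C]
    · change σ c ≠ c
      have h := hσ (X ⟨c, hct'⟩)
      rw [aeval_X] at h
      change σ c = aeval _ (e (X ⟨c, hct'⟩)) at h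
      have he : e (X ⟨c, hct'⟩) = X ⟨c, hct'⟩ + C 1 := by
        simp [e, δ]
      rw [h, he, map_add, aeval_X, aeval_C, map_one]
      simp

end Pool.Agent.Helper63.OLB
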